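import Pool.Agent.W223.HZ.Stms

namespace Pool.Agent.W490.HZ.GD1

open Pool.Agent.W223.HZ

theorem tri_bound {R α V x y k : ℝ} (hR : 20 ≤ R) (hα : 0 < α) (hV : V = α / R) (hV1 : 1 ≤ V)
    (hx : α ^ 2 = x) (hy : 0 ≤ y) (hk : y ^ 2 = x ^ 3 + k) (hk4 : |k| ≤ R ^ 4)
    {u₁ v₁ u₂ v₂ u₃ v₃ N₁ N₂ N₃ : ℝ}
    (hd₁ : |u₁ - α * v₁| * V ≤ N₁) (hv₁ : |v₁| ≤ N₁ * V)
    (hd₂ : |u₂ - α * v₂| * V ≤ N₂) (hv₂ : |v₂| ≤ N₂ * V)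
    (hd₃ : |u₃ - α * v₃| * V ≤ N₃) (hv₃ : |v₃| ≤ N₃ * V) :
    |u₁ * u₂ * u₃ - x * (u₁ * v₂ * v₃ + v₁ * u₂ * v₃ + v₁ * v₂ * u₃) + 2 * y * (v₁ * v₂ * v₃)| ≤
      6 * R * (N₁ * N₂ * N₃) := by
  have hR0 : 0 < R := by linarith
  have hV0 : 0 < V := by linarith
  have hαV : α = R * V := by rw [hV]; field_simp
  have hN₁ : 0 ≤ N₁ := le_trans (by positivity) hd₁
  have hN₂ : 0 ≤ N₂ := le_trans (by positivity) hd₂
  have hN₃ : 0 ≤ N₃ := le_trans (by positivity) hd₃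
  have hd₁' : |u₁ - α * v₁| ≤ N₁ / V := by rwa [le_div_iff₀ hV0]
  have hd₂' : |u₂ - α * v₂| ≤ N₂ / V := by rwa [le_div_iff₀ hV0]
  have hd₃' : |u₃ - α * v₃| ≤ N₃ / V := by rwa [le_div_iff₀ hV0]
  have hyk : |2 * y - 2 * α ^ 3| ≤ 2 * R / V ^ 3 := by
    have h1 : (2 * y - 2 * α ^ 3) * (y + α ^ 3) = 2 * k := by
      rw [← hx] at hk
      linear_combination 2 * hk
    have h2 : |2 * y - 2 * α ^ 3| * (y + α ^ 3) = 2 * |k| := by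
      have h3 : 0 ≤ y + α ^ 3 := by positivity
      rw [← abs_of_nonneg h3, ← abs_mul, h1, abs_mul, abs_of_pos (by norm_num : (0 : ℝ) < 2)]
    have h4 : |2 * y - 2 * α ^ 3| * α ^ 3 ≤ 2 * R ^ 4 := by
      nlinarith [mul_nonneg (abs_nonneg (2 * y - 2 * α ^ 3)) hy]
    rw [le_div_iff₀ (by positivity)]
    rw [hαV] at h4 ⊢
    have h5 : |2 * y - 2 * (R * V) ^ 3| * V ^ 3 * R ^ 3 ≤ 2 * R * R ^ 3 := by
      calc _ = |2 * y - 2 * (R * V) ^ 3| * (R * V) ^ 3 := by ring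
        _ ≤ 2 * R ^ 4 := h4
        _ = _ := by ring
    exact le_of_mul_le_mul_right h5 (by positivity)
  have key : u₁ * u₂ * u₃ - x * (u₁ * v₂ * v₃ + v₁ * u₂ * v₃ + v₁ * v₂ * u₃)
      + 2 * y * (v₁ * v₂ * v₃) =
      (u₁ - α * v₁) * (u₂ - α * v₂) * (u₃ - α * v₃)
      + α * (v₁ * (u₂ - α * v₂) * (u₃ - α * v₃)) + α * ((u₁ - α * v₁) * v₂ * (u₃ - α * v₃))
      + α * ((u₁ - α * v₁) * (u₂ - α * v₂) * v₃) + (2 * y - 2 * α ^ 3) * (v₁ * v₂ * v₃) := by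
    rw [← hx]
    ring
  have b0 : |(u₁ - α * v₁) * (u₂ - α * v₂) * (u₃ - α * v₃)| ≤ R * (N₁ * N₂ * N₃) := by
    rw [abs_mul, abs_mul]
    have e₁ : |u₁ - α * v₁| ≤ N₁ := hd₁'.trans (div_le_self hN₁ hV1)
    have e₂ : |u₂ - α * v₂| ≤ N₂ := hd₂'.trans (div_le_self hN₂ hV1)
    have e₃ : |u₃ - α * v₃| ≤ N₃ := hd₃'.trans (div_le_self hN₃ hV1)
    have h1 : |u₁ - α * v₁| * |u₂ - α * v₂| * |u₃ - α * v₃| ≤ N₁ * N₂ * N₃ := by gcongr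
    have h2 : 0 ≤ N₁ * N₂ * N₃ := by positivity
    nlinarith
  have b1 : |α * (v₁ * (u₂ - α * v₂) * (u₃ - α * v₃))| ≤ R * (N₁ * N₂ * N₃) := by
    rw [abs_mul, abs_mul, abs_mul, abs_of_pos hα]
    calc α * (|v₁| * |u₂ - α * v₂| * |u₃ - α * v₃|)
        ≤ α * ((N₁ * V) * (N₂ / V) * (N₃ / V)) := by gcongr
      _ = R * (N₁ * N₂ * N₃) := by rw [hαV]; field_simp
  have b2 : |α * ((u₁ - α * v₁) * v₂ * (u₃ - α * v₃))| ≤ R * (N₁ * N₂ * N₃) := by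
    rw [abs_mul, abs_mul, abs_mul, abs_of_pos hα]
    calc α * (|u₁ - α * v₁| * |v₂| * |u₃ - α * v₃|)
        ≤ α * ((N₁ / V) * (N₂ * V) * (N₃ / V)) := by gcongr
      _ = R * (N₁ * N₂ * N₃) := by rw [hαV]; field_simp
  have b3 : |α * ((u₁ - α * v₁) * (u₂ - α * v₂) * v₃)| ≤ R * (N₁ * N₂ * N₃) := by
    rw [abs_mul, abs_mul, abs_mul, abs_of_pos hα]
    calc α * (|u₁ - α * v₁| * |u₂ - α * v₂| * |v₃|)
        ≤ α * ((N₁ / V) * (N₂ / V) * (N₃ * V)) := by gcongr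
      _ = R * (N₁ * N₂ * N₃) := by rw [hαV]; field_simp
  have b4 : |(2 * y - 2 * α ^ 3) * (v₁ * v₂ * v₃)| ≤ 2 * R * (N₁ * N₂ * N₃) := by
    rw [abs_mul, abs_mul, abs_mul]
    calc |2 * y - 2 * α ^ 3| * (|v₁| * |v₂| * |v₃|)
        ≤ (2 * R / V ^ 3) * ((N₁ * V) * (N₂ * V) * (N₃ * V)) := by gcongr
      _ = 2 * R * (N₁ * N₂ * N₃) := by field_simp
  rw [key]
  rw [abs_le] at b0 b1 b2 b3 b4 ⊢
  constructor <;> linarith [b0.1, b0.2, b1.1, b1.2, b2.1, b2.2, b3.1, b3.2, b4.1, b4.2]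

theorem t : StmtGD1 := by
  intro R α V V₀ T hR hα hV hV₀ hV₀V hV2 hT x y k hx hy hk hk4 u₁ v₁ u₂ v₂ hdet hv₁ h1 h2
  have hT0 : 0 < T := by linarith
  have hR0 : 0 < R := by linarith
  have hV1 : 1 ≤ V := hV₀.trans hV₀V
  have hV0 : 0 < V := by linarith
  have hy' : (0 : ℝ) ≤ y := by exact_mod_cast hy
  have hk' : (y : ℝ) ^ 2 = (x : ℝ) ^ 3 + k := by exact_mod_cast hk
  -- norms
  have n1 : |((u₁ : ℝ) - α * v₁) * V| ≤ 1 / T := by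
    apply abs_le_of_sq_le_sq _ (by positivity)
    rw [div_pow, one_pow, le_div_iff₀ (by positivity)]
    nlinarith [sq_nonneg ((v₁ : ℝ) / V * T)]
  have n2 : |(v₁ : ℝ) / V| ≤ 1 / T := by
    apply abs_le_of_sq_le_sq _ (by positivity)
    rw [div_pow, div_pow, one_pow, le_div_iff₀ (by positivity)]
    rw [div_pow] at h1
    nlinarith [sq_nonneg (((u₁ : ℝ) - α * v₁) * V * T)]
  have n3 : |((u₂ : ℝ) - α * v₂) * V| ≤ 3 * T := by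
    apply abs_le_of_sq_le_sq _ (by positivity)
    nlinarith [sq_nonneg ((v₂ : ℝ) / V), sq_nonneg T]
  have n4 : |(v₂ : ℝ) / V| ≤ 3 * T := by
    apply abs_le_of_sq_le_sq _ (by positivity)
    nlinarith [sq_nonneg (((u₂ : ℝ) - α * v₂) * V), sq_nonneg T]
  rw [abs_mul, abs_of_pos hV0] at n1 n3
  rw [abs_div, abs_of_pos hV0, div_le_iff₀ hV0] at n2 n4
  have B := fun {a b c d e g : ℝ} {N₁ N₂ N₃ : ℝ} (p1 : |a - α * b| * V ≤ N₁) (p2 : |b| ≤ N₁ * V)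
    (p3 : |c - α * d| * V ≤ N₂) (p4 : |d| ≤ N₂ * V) (p5 : |e - α * g| * V ≤ N₃)
    (p6 : |g| ≤ N₃ * V) => tri_bound hR hα hV hV1 hx hy' hk' hk4 p1 p2 p3 p4 p5 p6
  have ba := B n1 n2 n1 n2 n1 n2
  have bb := B n1 n2 n1 n2 n3 n4
  have bc := B n3 n4 n3 n4 n1 n2
  have bd := B n3 n4 n3 n4 n3 n4
  refine ⟨⟨?_, ?_, ?_, ?_, ?_, ?_, ?_⟩, ?_⟩
  · have e : ((cA x y u₁ v₁ : ℤ) : ℝ) = (u₁ : ℝ) * u₁ * u₁
        - x * (u₁ * v₁ * v₁ + v₁ * u₁ * v₁ + v₁ * v₁ * u₁) + 2 * y * (v₁ * v₁ * v₁) := by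
      unfold cA; push_cast; ring
    rw [e]
    calc _ ≤ 6 * R * (1 / T * (1 / T) * (1 / T)) * T ^ 3 := by gcongr
      _ = 6 * R := by field_simp
      _ ≤ 200 * R := by linarith
  · have e : ((cB x y u₁ v₁ u₂ v₂ : ℤ) : ℝ) = (u₁ : ℝ) * u₁ * u₂
        - x * (u₁ * v₁ * v₂ + v₁ * u₁ * v₂ + v₁ * v₁ * u₂) + 2 * y * (v₁ * v₁ * v₂) := by
      unfold cB; push_cast; ring
    rw [e]
    calc _ ≤ 6 * R * (1 / T * (1 / T) * (3 * T)) * T := by gcongr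
      _ = 18 * R := by field_simp; ring
      _ ≤ 200 * R := by linarith
  · have e : ((cB x y u₂ v₂ u₁ v₁ : ℤ) : ℝ) = (u₂ : ℝ) * u₂ * u₁
        - x * (u₂ * v₂ * v₁ + v₂ * u₂ * v₁ + v₂ * v₂ * u₁) + 2 * y * (v₂ * v₂ * v₁) := by
      unfold cB; push_cast; ring
    rw [e]
    calc _ ≤ 6 * R * (3 * T * (3 * T) * (1 / T)) := bc
      _ = 54 * (R * T) := by field_simp; ring
      _ ≤ 200 * (R * T) := by nlinarith [mul_pos hR0 hT0]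
  · have e : ((cA x y u₂ v₂ : ℤ) : ℝ) = (u₂ : ℝ) * u₂ * u₂
        - x * (u₂ * v₂ * v₂ + v₂ * u₂ * v₂ + v₂ * v₂ * u₂) + 2 * y * (v₂ * v₂ * v₂) := by
      unfold cA; push_cast; ring
    rw [e]
    calc _ ≤ 6 * R * (3 * T * (3 * T) * (3 * T)) := bd
      _ = 162 * (R * T ^ 3) := by ring
      _ ≤ 200 * (R * T ^ 3) := by nlinarith [mul_pos hR0 (pow_pos hT0 3)]
  · nlinarith [mul_pos hT0 hV0]
  · push_cast
    rw [abs_neg]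
    calc |(v₁ : ℝ)| * T ≤ (1 / T * V) * T := by gcongr
      _ = V := by field_simp
      _ ≤ 200 * V₀ := by linarith
  · have e : cA x y u₁ v₁ * v₂ ^ 3 + 3 * cB x y u₁ v₁ u₂ v₂ * v₂ ^ 2 * (-v₁)
        + 3 * cB x y u₂ v₂ u₁ v₁ * v₂ * (-v₁) ^ 2 + cA x y u₂ v₂ * (-v₁) ^ 3
        = (u₁ * v₂ - u₂ * v₁) ^ 3 := by
      unfold cA cB; ring
    rw [e, hdet]; norm_num
  · have e : disc4 (cA x y u₁ v₁) (cB x y u₁ v₁ u₂ v₂) (cB x y u₂ v₂ u₁ v₁) (cA x y u₂ v₂)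
        = (u₁ * v₂ - u₂ * v₁) ^ 6 * (4 * y ^ 2 - 4 * x ^ 3) := by
      unfold disc4 cA cB; ring
    rw [e, hdet, hk]; ring

end Pool.Agent.W490.HZ.GD1
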